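import Pool.Agent.H487.GA.Stm2
import Pool.Graph.R_seed8.H370R2.Local
import Pool.Graph.R_seed8.H370R2.DirGood
import Pool.Graph.R_seed8.H370R2.Count

/-!
Project GA: the Poisson sum is the linear statistic of the truncated kernel, in mean (S_POI).
-/

set_option autoImplicit false

open Finset Complex Filter Topology Metric Set MeasureTheory

namespace Pool.Agent.H969.GA.POI

open Pool.Agent.H487.GA
open Pool.Agent.H477.E (lamT)

/-! ### the number of zeros -/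

theorem ZI_eq (A B : ℝ) : H370.zset riemannZeta A B = ZI A B := rfl

theorem NN_len : ∃ C : ℝ, 0 < C ∧ ∀ a : ℝ, 3 ≤ a → ∀ n : ℕ,
    (H370.NN riemannZeta a (a + 2 * n) : ℝ) ≤ n * (C * Real.log (a + 2 * n)) := by
  obtain ⟨C, hC, hz⟩ := H370.zcount H370.good_zeta
  refine ⟨C, hC, fun a ha n => ?_⟩
  induction n with
  | zero =>
    have h : H370.zset riemannZeta a (a + 2 * (0 : ℕ)) = ∅ := by
      rw [Set.eq_empty_iff_forall_notMem]
      rintro s ⟨-, -, h1, h2, -⟩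
      push_cast at h2
      linarith
    unfold H370.NN
    rw [h, finsum_mem_empty]
    simp
  | succ n ih =>
    have h1 := H370.NN_add H370.good_zeta (a := a) (b := a + 2 * n) (c := a + 2 * (n + 1 : ℕ))
      (by linarith) (by have : (0:ℝ) ≤ n := Nat.cast_nonneg n; linarith) (by push_cast; linarith)
    have h2 := hz (a + 2 * n + 1) (by have : (0:ℝ) ≤ n := Nat.cast_nonneg n; linarith)
    have e1 : a + 2 * (n:ℝ) + 1 - 1 = a + 2 * n := by ring
    have e2 : a + 2 * (n:ℝ) + 1 + 1 = a + 2 * ((n + 1 : ℕ) : ℝ) := by push_cast; ring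
    rw [e1, e2] at h2
    rw [h1]
    push_cast at h2 ih ⊢
    have hn0 : (0:ℝ) ≤ n := Nat.cast_nonneg n
    have l1 : Real.log (a + 2 * n) ≤ Real.log (a + 2 * (n + 1)) :=
      Real.log_le_log (by linarith) (by linarith)
    have l2 : Real.log (a + 2 * n + 1) ≤ Real.log (a + 2 * (n + 1)) :=
      Real.log_le_log (by linarith) (by linarith)
    have l3 : C * Real.log (a + 2 * n + 1) ≤ C * Real.log (a + 2 * (n + 1)) :=
      mul_le_mul_of_nonneg_left l2 hC.le
    have l4 : n * (C * Real.log (a + 2 * n)) ≤ n * (C * Real.log (a + 2 * (n + 1))) :=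
      mul_le_mul_of_nonneg_left (mul_le_mul_of_nonneg_left l1 hC.le) hn0
    nlinarith

theorem count : ∃ C : ℝ, 0 < C ∧ ∀ T : ℝ, 10 ≤ T → ∃ Z : Finset ℂ,
    (∀ s, s ∈ Z ↔ s ∈ ZI (T / 2) (3 * T)) ∧ ∑ s ∈ Z, (mz s : ℝ) ≤ C * (T * Real.log T) := by
  obtain ⟨C, hC, hn⟩ := NN_len
  refine ⟨4 * C, by positivity, fun T hT => ?_⟩
  have hfin := H370.zset_finite H370.good_zeta (T / 2) (3 * T) (by linarith)
  refine ⟨hfin.toFinset, fun s => by rw [Set.Finite.mem_toFinset]; exact Iff.rfl, ?_⟩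
  obtain ⟨n, hn1, hn2⟩ : ∃ n : ℕ, 5 / 4 * T ≤ n ∧ (n : ℝ) ≤ 2 * T := by
    refine ⟨⌈5 / 4 * T⌉₊, Nat.le_ceil _, ?_⟩
    have := Nat.ceil_lt_add_one (show 0 ≤ 5 / 4 * T by linarith)
    linarith
  have h1 := hn (T / 2) (by linarith) n
  have h2 := H370.NN_mono H370.good_zeta (a := T / 2) (b := 3 * T) (a' := T / 2)
    (b' := T / 2 + 2 * n) (by linarith) le_rfl (by linarith)
  have h3 : (H370.NN riemannZeta (T / 2) (3 * T) : ℝ) = ∑ s ∈ hfin.toFinset, (mz s : ℝ) := by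
    unfold H370.NN
    rw [finsum_mem_eq_finite_toFinset_sum _ hfin]
    push_cast
    rfl
  have h4 : Real.log (T / 2 + 2 * n) ≤ 2 * Real.log T := by
    have : Real.log (T / 2 + 2 * n) ≤ Real.log (T ^ 2) :=
      Real.log_le_log (by positivity) (by nlinarith)
    rw [Real.log_pow] at this
    push_cast at this
    exact this
  have hL : 0 ≤ Real.log T := Real.log_nonneg (by linarith)
  have hlog0 : 0 ≤ Real.log (T / 2 + 2 * n) := Real.log_nonneg (by linarith)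
  rw [← h3]
  calc (H370.NN riemannZeta (T / 2) (3 * T) : ℝ) ≤ H370.NN riemannZeta (T / 2) (T / 2 + 2 * n) := by
        exact_mod_cast h2
    _ ≤ n * (C * Real.log (T / 2 + 2 * n)) := h1
    _ ≤ (2 * T) * (C * (2 * Real.log T)) := by gcongr
    _ = 4 * C * (T * Real.log T) := by ring

/-! ### the kernel -/

/-- the Poisson kernel times `y` -/
noncomputable def ph (y x : ℝ) : ℝ := y ^ 2 / (x ^ 2 + y ^ 2)

/-- the sum of the blocks of the partition of unity -/
noncomputable def Ps (N : ℕ) (x : ℝ) : ℝ :=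
  Real.smoothTransition (2 * x + N + 1) - Real.smoothTransition (2 * x - N)

theorem psi_sum (N : ℕ) (x : ℝ) :
    ∑ k ∈ Finset.range (2 * N + 1), psi (2 * x - ((k : ℝ) - N)) = Ps N x := by
  have h : ∀ k ∈ Finset.range (2 * N + 1), psi (2 * x - ((k : ℝ) - N)) =
      (fun k : ℕ => Real.smoothTransition (2 * x + N + 1 - k)) k -
      (fun k : ℕ => Real.smoothTransition (2 * x + N + 1 - k)) (k + 1) := by
    intro k _
    unfold psi
    simp only
    congr 1
    · congr 1; ring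
    · congr 1; push_cast; ring
  rw [Finset.sum_congr rfl h, Finset.sum_range_sub']
  unfold Ps
  congr 1
  · congr 1; push_cast; ring
  · congr 1; push_cast; ring

theorem Ps_nonneg (N : ℕ) (x : ℝ) : 0 ≤ Ps N x := by
  unfold Ps
  rw [sub_nonneg]
  apply Real.smoothTransition.monotone
  have : (0:ℝ) ≤ N := Nat.cast_nonneg N
  linarith

theorem Ps_le (N : ℕ) (x : ℝ) : Ps N x ≤ 1 := by
  unfold Ps
  have h1 := Real.smoothTransition.le_one (2 * x + N + 1)
  have h2 := Real.smoothTransition.nonneg (2 * x - N)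
  linarith

theorem Ps_one (N : ℕ) (x : ℝ) (hx : |x| ≤ N / 2) : Ps N x = 1 := by
  unfold Ps
  rw [abs_le] at hx
  rw [Real.smoothTransition.one_of_one_le (by linarith [hx.1]),
    Real.smoothTransition.zero_of_nonpos (by linarith [hx.2]), sub_zero]

theorem chi_nonneg (x : ℝ) : 0 ≤ chi x := Real.smoothTransition.nonneg _

theorem chi_le (x : ℝ) : chi x ≤ 1 := Real.smoothTransition.le_one _

theorem chi_cont : Continuous chi := by
  unfold chi
  exact Real.smoothTransition.continuous.comp (by fun_prop)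

theorem chi_zero {x : ℝ} (hx : 1 ≤ |x|) : chi x = 0 := by
  unfold chi
  apply Real.smoothTransition.zero_of_nonpos
  have : 1 ≤ x ^ 2 := by rw [← sq_abs]; nlinarith
  linarith

theorem Ps_cont (N : ℕ) : Continuous (Ps N) := by
  unfold Ps
  exact (Real.smoothTransition.continuous.comp (by fun_prop)).sub
    (Real.smoothTransition.continuous.comp (by fun_prop))

theorem ph_cont {y : ℝ} (hy : 0 < y) : Continuous (ph y) := by
  unfold ph
  exact continuous_const.div (by fun_prop) (fun x => by positivity)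

/-- the far part -/
noncomputable def Ef (N : ℕ) (y x : ℝ) : ℝ := ph y x * (1 - chi x) * (1 - Ps N x)

theorem Ef_cont (N : ℕ) {y : ℝ} (hy : 0 < y) : Continuous (Ef N y) := by
  unfold Ef
  exact ((ph_cont hy).mul (continuous_const.sub chi_cont)).mul (continuous_const.sub (Ps_cont N))

theorem Ef_nonneg (N : ℕ) (y x : ℝ) : 0 ≤ Ef N y x := by
  unfold Ef ph
  have h1 := chi_le x
  have h2 := Ps_le N x
  have h3 : 0 ≤ 1 - chi x := by linarith
  have h4 : 0 ≤ 1 - Ps N x := by linarith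
  positivity

theorem Ef_le {N : ℕ} (hN : 0 < N) {y : ℝ} (_hy : 0 < y) (x : ℝ) :
    Ef N y x ≤ 2 * y ^ 2 * (1 / (x ^ 2 + ((N : ℝ) / 2) ^ 2)) := by
  have hN0 : (0:ℝ) < N := by exact_mod_cast hN
  rcases le_or_gt |x| ((N : ℝ) / 2) with h | h
  · unfold Ef
    rw [Ps_one N x h, sub_self, mul_zero]
    positivity
  · have h1 := chi_le x
    have h2 := Ps_le N x
    have h3 : 0 ≤ 1 - chi x := by linarith
    have h4 : 0 ≤ 1 - Ps N x := by linarith
    have h5 : 1 - chi x ≤ 1 := by linarith [chi_nonneg x]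
    have h6 : 1 - Ps N x ≤ 1 := by linarith [Ps_nonneg N x]
    have hx : ((N : ℝ) / 2) ^ 2 ≤ x ^ 2 := by
      rw [← sq_abs x]
      exact pow_le_pow_left₀ (by positivity) h.le 2
    have hph : 0 ≤ ph y x := by unfold ph; positivity
    have h7 : Ef N y x ≤ ph y x := by
      unfold Ef
      calc ph y x * (1 - chi x) * (1 - Ps N x) ≤ ph y x * 1 * 1 := by gcongr
        _ = ph y x := by ring
    refine h7.trans ?_
    unfold ph
    rw [mul_one_div, div_le_div_iff₀ (by positivity) (by positivity)]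
    have : 0 ≤ y ^ 2 := sq_nonneg y
    nlinarith

theorem decomp (N : ℕ) {y : ℝ} (hy : 0 < y) (x : ℝ) : ph y x - Fy y x =
    Ef N y x + y ^ 2 * ∑ k ∈ Finset.range (2 * N + 1),
      Hn y ((k : ℤ) - N) (x - ((k : ℝ) - N) / 2) := by
  have h1 : ∀ k ∈ Finset.range (2 * N + 1), Hn y ((k : ℤ) - N) (x - ((k : ℝ) - N) / 2) =
      psi (2 * x - ((k : ℝ) - N)) * ((1 - chi x) / (x ^ 2 + y ^ 2)) := by
    intro k _
    unfold Hn
    have e1 : x - ((k : ℝ) - N) / 2 + (((k : ℤ) - N : ℤ) : ℝ) / 2 = x := by push_cast; ring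
    have e2 : 2 * (x - ((k : ℝ) - N) / 2) = 2 * x - ((k : ℝ) - N) := by ring
    rw [e1, e2]
    ring
  rw [Finset.sum_congr rfl h1, ← Finset.sum_mul, psi_sum]
  unfold Ef Fy ph
  ring

/-! ### integrals -/

theorem kint {a : ℝ} (ha : 0 < a) : Integrable (fun x : ℝ => 1 / (x ^ 2 + a ^ 2)) ∧
    ∫ x : ℝ, 1 / (x ^ 2 + a ^ 2) = Real.pi / a := by
  have e : (fun x : ℝ => 1 / (x ^ 2 + a ^ 2)) =
      fun x => (a ^ 2)⁻¹ * (fun u : ℝ => (1 + u ^ 2)⁻¹) (x / a) := by
    funext x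
    simp only
    rw [div_pow]
    field_simp
    ring
  constructor
  · rw [e]
    exact (integrable_inv_one_add_sq.comp_div ha.ne').const_mul _
  · rw [e, integral_const_mul, Measure.integral_comp_div (fun u : ℝ => (1 + u ^ 2)⁻¹) a,
      integral_univ_inv_one_add_sq, abs_of_pos ha, smul_eq_mul]
    field_simp

theorem ph_int {y : ℝ} (hy : 0 < y) : Integrable (ph y) ∧ ∫ x, ph y x = Real.pi * y := by
  have e : ph y = fun x => y ^ 2 * (1 / (x ^ 2 + y ^ 2)) := by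
    funext x
    unfold ph
    ring
  obtain ⟨h1, h2⟩ := kint hy
  rw [e]
  refine ⟨h1.const_mul _, ?_⟩
  rw [integral_const_mul, h2]
  field_simp

theorem Fy_int {y : ℝ} (hy : 0 < y) : Integrable (Fy y) := by
  have hc : Continuous (Fy y) := (ph_cont hy).mul chi_cont
  apply hc.integrable_of_hasCompactSupport
  apply HasCompactSupport.intro (isCompact_Icc (a := (-1:ℝ)) (b := 1))
  intro x hx
  have : 1 ≤ |x| := by
    by_contra h
    push Not at h
    rw [abs_lt] at h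
    exact hx ⟨h.1.le, h.2.le⟩
  unfold Fy
  rw [chi_zero this, mul_zero]

theorem Ef_int {N : ℕ} (hN : 0 < N) {y : ℝ} (hy : 0 < y) : Integrable (Ef N y) ∧
    0 ≤ ∫ x, Ef N y x ∧ ∫ x, Ef N y x ≤ 2 * y ^ 2 * (Real.pi / ((N : ℝ) / 2)) := by
  have hN0 : (0:ℝ) < (N : ℝ) / 2 := by
    have : (0:ℝ) < N := by exact_mod_cast hN
    positivity
  obtain ⟨h1, h2⟩ := kint hN0
  have h3 := h1.const_mul (2 * y ^ 2)
  have h4 : Integrable (Ef N y) := by
    apply h3.mono' (Ef_cont N hy).aestronglyMeasurable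
    refine ae_of_all _ fun x => ?_
    rw [Real.norm_eq_abs, abs_of_nonneg (Ef_nonneg N y x)]
    exact Ef_le hN hy x
  refine ⟨h4, integral_nonneg fun x => Ef_nonneg N y x, ?_⟩
  have h5 := integral_mono h4 h3 (fun x => Ef_le hN hy x)
  rw [integral_const_mul, h2] at h5
  exact h5

theorem blk_int {N : ℕ} (hN : 0 < N) {y : ℝ} (hy : 0 < y) (hH : ∀ n : ℤ, Integrable (Hn y n)) :
    (∫ x, Fy y x) + y ^ 2 * ∑ k ∈ Finset.range (2 * N + 1), ∫ x, Hn y ((k : ℤ) - N) x =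
      Real.pi * y - ∫ x, Ef N y x := by
  have h1 : ∀ k ∈ Finset.range (2 * N + 1), ∫ x, Hn y ((k : ℤ) - N) x =
      ∫ x, Hn y ((k : ℤ) - N) (x - ((k : ℝ) - N) / 2) := fun k _ =>
    (integral_sub_right_eq_self (Hn y ((k : ℤ) - N)) (((k : ℝ) - N) / 2)).symm
  have h2 : ∀ k ∈ Finset.range (2 * N + 1),
      Integrable (fun x => Hn y ((k : ℤ) - N) (x - ((k : ℝ) - N) / 2)) := fun k _ =>
    (hH _).comp_sub_right _
  have h3 : Integrable (fun x => y ^ 2 * ∑ k ∈ Finset.range (2 * N + 1),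
      Hn y ((k : ℤ) - N) (x - ((k : ℝ) - N) / 2)) := (integrable_finsetSum _ h2).const_mul _
  rw [Finset.sum_congr rfl h1, ← integral_finsetSum _ h2, ← integral_const_mul,
    ← integral_add (Fy_int hy) h3, ← (ph_int hy).2, ← integral_sub (ph_int hy).1 (Ef_int hN hy).1]
  refine integral_congr_ae (ae_of_all _ fun x => ?_)
  have h4 := decomp N hy x
  simp only
  linarith

/-! ### the sums over the zeros -/

theorem zs_sum {T : ℝ} {Z : Finset ℂ} (hZ : ∀ s, s ∈ Z ↔ s ∈ ZI (T / 2) (3 * T)) (F : ℝ → ℝ)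
    (hF : ∀ x, 1 ≤ |x| → F x = 0) (t : ℝ) (h1 : T / 2 + 1 ≤ t) (h2 : t + 1 ≤ 3 * T) :
    ∑ᶠ s ∈ ZS, (mz s : ℝ) * F (s.im - t) = ∑ s ∈ Z, (mz s : ℝ) * F (s.im - t) := by
  apply finsum_mem_eq_sum_of_inter_support_eq
  ext s
  simp only [Set.mem_inter_iff, Function.mem_support, Finset.mem_coe]
  constructor
  · rintro ⟨hs, hne⟩
    refine ⟨?_, hne⟩
    have h3 : |s.im - t| < 1 := by
      by_contra h
      push Not at h
      exact hne (by rw [hF _ h, mul_zero])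
    rw [abs_lt] at h3
    rw [hZ]
    exact ⟨hs.2.1, hs.2.2, by linarith [h3.1], by linarith [h3.2], hs.1⟩
  · rintro ⟨hs, hne⟩
    rw [hZ] at hs
    exact ⟨⟨hs.2.2.2.2, hs.1, hs.2.1⟩, hne⟩

theorem XF_eq {T : ℝ} {Z : Finset ℂ} (hZ : ∀ s, s ∈ Z ↔ s ∈ ZI (T / 2) (3 * T)) (F : ℝ → ℝ)
    (hF : ∀ x, 1 ≤ |x| → F x = 0) (t : ℝ) (h1 : T / 2 + 1 ≤ t) (h2 : t + 1 ≤ 3 * T) :
    XF F T t = ∑ s ∈ Z, (mz s : ℝ) * F (s.im - t) - Real.log T / (2 * Real.pi) * ∫ x : ℝ, F x := by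
  unfold XF
  rw [zs_sum hZ F hF t h1 h2]

/-- the block as an everywhere continuous function -/
noncomputable def Xn (Z : Finset ℂ) (T y : ℝ) (n : ℤ) (t : ℝ) : ℝ :=
  ∑ s ∈ Z, (mz s : ℝ) * Hn y n (s.im - (t + (n : ℝ) / 2)) -
    Real.log T / (2 * Real.pi) * ∫ x : ℝ, Hn y n x

theorem ident {T : ℝ} {Z : Finset ℂ} (hZ : ∀ s, s ∈ Z ↔ s ∈ ZI (T / 2) (3 * T)) {N : ℕ}
    (hN : 0 < N) {y : ℝ} (hy : 0 < y) (hH : ∀ n : ℤ, Integrable (Hn y n)) (t : ℝ)
    (h1 : T / 2 + 1 ≤ t) (h2 : t + 1 ≤ 3 * T) :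
    (∑ᶠ ρ ∈ ZI (T / 2) (3 * T), (mz ρ : ℝ) * (y ^ 2 / ((ρ.im - t) ^ 2 + y ^ 2))) - y * lamT T -
      XF (Fy y) T t =
    ∑ s ∈ Z, (mz s : ℝ) * Ef N y (s.im - t) +
      ∑ k ∈ Finset.range (2 * N + 1), y ^ 2 * Xn Z T y ((k : ℤ) - N) t +
      (Real.log T / (2 * Real.pi) * (Real.pi * y - ∫ x, Ef N y x) - y * lamT T) := by
  have hZs : ZI (T / 2) (3 * T) = (Z : Set ℂ) := by
    ext s
    exact (hZ s).symm
  rw [hZs, finsum_mem_coe_finset, XF_eq hZ (Fy y) (fun x hx => by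
    unfold Fy; rw [chi_zero hx, mul_zero]) t h1 h2, ← blk_int hN hy hH]
  have h3 : ∑ k ∈ Finset.range (2 * N + 1), y ^ 2 * Xn Z T y ((k : ℤ) - N) t =
      ∑ s ∈ Z, (mz s : ℝ) * (y ^ 2 * ∑ k ∈ Finset.range (2 * N + 1),
        Hn y ((k : ℤ) - N) (s.im - t - ((k : ℝ) - N) / 2)) -
      Real.log T / (2 * Real.pi) * (y ^ 2 * ∑ k ∈ Finset.range (2 * N + 1),
        ∫ x, Hn y ((k : ℤ) - N) x) := by
    unfold Xn
    simp only [mul_sub, Finset.sum_sub_distrib, Finset.mul_sum]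
    congr 1
    · rw [Finset.sum_comm]
      refine Finset.sum_congr rfl fun s _ => Finset.sum_congr rfl fun k _ => ?_
      have e : s.im - (t + (((k : ℤ) - N : ℤ) : ℝ) / 2) = s.im - t - ((k : ℝ) - N) / 2 := by
        push_cast; ring
      rw [e]
      ring
    · refine Finset.sum_congr rfl fun k _ => ?_
      ring
  have h4 : ∑ s ∈ Z, (mz s : ℝ) * (y ^ 2 / ((s.im - t) ^ 2 + y ^ 2)) =
      ∑ s ∈ Z, (mz s : ℝ) * Fy y (s.im - t) + (∑ s ∈ Z, (mz s : ℝ) * Ef N y (s.im - t) +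
      ∑ s ∈ Z, (mz s : ℝ) * (y ^ 2 * ∑ k ∈ Finset.range (2 * N + 1),
        Hn y ((k : ℤ) - N) (s.im - t - ((k : ℝ) - N) / 2))) := by
    rw [← Finset.sum_add_distrib, ← Finset.sum_add_distrib]
    refine Finset.sum_congr rfl fun s _ => ?_
    have h5 := decomp N hy (s.im - t)
    have h6 : ph y (s.im - t) = y ^ 2 / ((s.im - t) ^ 2 + y ^ 2) := rfl
    rw [← h6]
    linear_combination (mz s : ℝ) * h5
  rw [h3, h4]
  ring

/-! ### the bounds -/

theorem E_bound {N : ℕ} (hN : 0 < N) {y : ℝ} (hy : 0 < y) (Z : Finset ℂ) (I : Set ℝ) :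
    ∫⁻ t in I, ENNReal.ofReal (∑ s ∈ Z, (mz s : ℝ) * Ef N y (s.im - t)) ≤
      ENNReal.ofReal ((∑ s ∈ Z, (mz s : ℝ)) * (2 * y ^ 2 * (Real.pi / ((N : ℝ) / 2)))) := by
  obtain ⟨h1, h2, h3⟩ := Ef_int hN hy
  have h4 : ∀ s : ℂ, Integrable (fun t : ℝ => (mz s : ℝ) * Ef N y (s.im - t)) := fun s =>
    (h1.comp_sub_left s.im).const_mul _
  have h5 : Integrable (fun t : ℝ => ∑ s ∈ Z, (mz s : ℝ) * Ef N y (s.im - t)) :=
    integrable_finsetSum _ fun s _ => h4 s
  have h6 : ∫ t : ℝ, ∑ s ∈ Z, (mz s : ℝ) * Ef N y (s.im - t) =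
      (∑ s ∈ Z, (mz s : ℝ)) * ∫ x, Ef N y x := by
    rw [integral_finsetSum _ fun s _ => h4 s, Finset.sum_mul]
    refine Finset.sum_congr rfl fun s _ => ?_
    rw [integral_const_mul, integral_sub_left_eq_self (Ef N y) volume s.im]
  refine (setLIntegral_le_lintegral I _).trans ?_
  rw [← ofReal_integral_eq_lintegral_ofReal h5 (ae_of_all _ fun t =>
    Finset.sum_nonneg fun s _ => mul_nonneg (Nat.cast_nonneg _) (Ef_nonneg N y _)), h6]
  apply ENNReal.ofReal_le_ofReal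
  exact mul_le_mul_of_nonneg_left h3 (Finset.sum_nonneg fun s _ => Nat.cast_nonneg _)

theorem X_bound {T : ℝ} (hT : 10 ≤ T) {Z : Finset ℂ} (hZ : ∀ s, s ∈ Z ↔ s ∈ ZI (T / 2) (3 * T))
    {c V C y : ℝ} (hc : 0 < c) (n : ℤ)
    (hA : Adm 1 V (Real.log T) (fun x => c * (1 + (n : ℝ) ^ 2) * Hn y n x))
    (hL1 : ∫⁻ t in Icc (T + 2 * Real.log T) (2 * T - 2 * Real.log T),
      ENNReal.ofReal |XF (fun x => c * (1 + (n : ℝ) ^ 2) * Hn y n x) T t| ≤
        ENNReal.ofReal (C * T * Real.sqrt (V + 1)))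
    (hn : |(n : ℝ)| ≤ 2 * Real.log T) :
    ∫⁻ t in Icc (T + 3 * Real.log T) (2 * T - 3 * Real.log T), ENNReal.ofReal (y ^ 2 * |Xn Z T y n t|) ≤
      ENNReal.ofReal (y ^ 2 * (C * T * Real.sqrt (V + 1)) / c * (1 / (1 + (n : ℝ) ^ 2))) := by
  have hL : 0 ≤ Real.log T := Real.log_nonneg (by linarith)
  obtain ⟨b, hb⟩ : ∃ b : ℝ, b = c * (1 + (n : ℝ) ^ 2) := ⟨_, rfl⟩
  have hb0 : 0 < b := by rw [hb]; positivity
  rw [← hb] at hL1 hA
  have hH0 : ∀ x, 1 ≤ |x| → Hn y n x = 0 := by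
    intro x hx
    have h1 := hA.c2.supp x hx
    exact (mul_eq_zero.1 h1).resolve_left hb0.ne'
  obtain ⟨I', hI'⟩ : ∃ I' : Set ℝ, I' = Icc (T + 2 * Real.log T) (2 * T - 2 * Real.log T) :=
    ⟨_, rfl⟩
  rw [← hI'] at hL1
  have hX : ∀ τ ∈ I', XF (fun x => b * Hn y n x) T τ = b * (∑ s ∈ Z, (mz s : ℝ) * Hn y n (s.im - τ) -
      Real.log T / (2 * Real.pi) * ∫ x : ℝ, Hn y n x) := by
    intro τ hτ
    rw [hI'] at hτ
    rw [XF_eq hZ (fun x => b * Hn y n x) hA.c2.supp τ (by linarith [hτ.1]) (by linarith [hτ.2]),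
      integral_const_mul, mul_sub, Finset.mul_sum]
    congr 1
    · exact Finset.sum_congr rfl fun s _ => by ring
    · ring
  have h2 : ∫⁻ t in Icc (T + 3 * Real.log T) (2 * T - 3 * Real.log T),
      ENNReal.ofReal (y ^ 2 * |Xn Z T y n t|) ≤
      ∫⁻ t, I'.indicator (fun τ => ENNReal.ofReal (y ^ 2 / b) *
        ENNReal.ofReal |XF (fun x => b * Hn y n x) T τ|) (t + (n : ℝ) / 2) := by
    rw [← lintegral_indicator measurableSet_Icc]
    apply lintegral_mono
    intro t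
    beta_reduce
    by_cases ht : t ∈ Icc (T + 3 * Real.log T) (2 * T - 3 * Real.log T)
    · rw [abs_le] at hn
      have ht' : t + (n : ℝ) / 2 ∈ I' := by
        rw [hI']
        exact ⟨by linarith [ht.1, hn.1], by linarith [ht.2, hn.2]⟩
      rw [Set.indicator_of_mem ht, Set.indicator_of_mem ht', hX _ ht', abs_mul, abs_of_pos hb0,
        ← ENNReal.ofReal_mul (by positivity)]
      apply ENNReal.ofReal_le_ofReal
      have e : ∀ A : ℝ, y ^ 2 / b * (b * A) = y ^ 2 * A := fun A => by field_simp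
      rw [e]
      exact le_rfl
    · rw [Set.indicator_of_notMem ht]
      exact zero_le
  refine h2.trans ?_
  rw [lintegral_add_right_eq_self (μ := volume) (I'.indicator (fun τ => ENNReal.ofReal (y ^ 2 / b) *
        ENNReal.ofReal |XF (fun x => b * Hn y n x) T τ|)) ((n : ℝ) / 2), lintegral_indicator (by
          rw [hI']; exact measurableSet_Icc), lintegral_const_mul' _ _ ENNReal.ofReal_ne_top]
  refine (mul_le_mul_right hL1 _).trans ?_
  rw [← ENNReal.ofReal_mul (by positivity)]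
  apply ENNReal.ofReal_le_ofReal
  apply le_of_eq
  rw [hb]
  field_simp

theorem sumN : ∃ B : ℝ, 0 < B ∧ ∀ N : ℕ, ∑ k ∈ Finset.range (2 * N + 1),
    1 / (1 + (((k : ℤ) - N : ℤ) : ℝ) ^ 2) ≤ B := by
  have hs1 : Summable (fun n : ℤ => 1 / (n : ℝ) ^ 2) :=
    Real.summable_one_div_int_pow.2 (by norm_num)
  have hs2 : Summable (fun n : ℤ => if n = 0 then (1 : ℝ) else 0) :=
    (hasSum_ite_eq 0 1).summable
  have hs : Summable (fun n : ℤ => 1 / (1 + (n : ℝ) ^ 2)) := by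
    apply Summable.of_nonneg_of_le (fun n => by positivity) _ (hs1.add hs2)
    intro n
    by_cases h : n = 0
    · rw [if_pos h, h]
      norm_num
    · rw [if_neg h, add_zero]
      have : (0:ℝ) < (n : ℝ) ^ 2 := by
        have : (n : ℝ) ≠ 0 := by exact_mod_cast h
        positivity
      apply one_div_le_one_div_of_le this
      linarith
  refine ⟨∑' n : ℤ, 1 / (1 + (n : ℝ) ^ 2), ?_, fun N => ?_⟩
  · apply hs.tsum_pos (fun n => by positivity) 0
    norm_num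
  · have h1 : ∑ k ∈ Finset.range (2 * N + 1), 1 / (1 + (((k : ℤ) - N : ℤ) : ℝ) ^ 2) =
        ∑ n ∈ (Finset.range (2 * N + 1)).image (fun k : ℕ => (k : ℤ) - N),
          1 / (1 + (n : ℝ) ^ 2) := by
      rw [Finset.sum_image]
      intro a _ b _ hab
      simp only at hab
      omega
    rw [h1]
    exact hs.sum_le_tsum _ (fun n _ => by positivity)

theorem K_bound {T y ε : ℝ} (hT : 0 < T) {N : ℕ} (hL0 : 0 ≤ Real.log T) (hN0 : 0 < N)
    (hN : Real.log T ≤ N)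
    (hy : 0 < y) (hy1 : y ≤ 5 / 4) (he0 : 0 ≤ ε) (he : ε ≤ 2 * y ^ 2 * (Real.pi / ((N : ℝ) / 2))) :
    |Real.log T / (2 * Real.pi) * (Real.pi * y - ε) - y * lamT T| ≤
      y * (Real.log (2 * Real.pi) / 2 + 5 / 2) := by
  have hpi := Real.pi_pos
  have hNR : (0:ℝ) < N := by exact_mod_cast hN0
  have h1 : Real.log (T / (2 * Real.pi)) = Real.log T - Real.log (2 * Real.pi) :=
    Real.log_div hT.ne' (by positivity)
  have h2 : Real.log T / (2 * Real.pi) * (Real.pi * y - ε) - y * lamT T =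
      y * (Real.log (2 * Real.pi) / 2) - Real.log T * ε / (2 * Real.pi) := by
    unfold lamT
    rw [h1]
    field_simp
    ring
  have h3 : Real.log T * ε / (2 * Real.pi) ≤ 2 * y ^ 2 := by
    rw [div_le_iff₀ (by positivity)]
    have h4 : Real.log T * ε ≤ N * (2 * y ^ 2 * (Real.pi / ((N : ℝ) / 2))) :=
      mul_le_mul hN he he0 hNR.le
    have h5 : (N : ℝ) * (2 * y ^ 2 * (Real.pi / ((N : ℝ) / 2))) = 2 * y ^ 2 * (2 * Real.pi) := by
      field_simp
    rw [h5] at h4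
    exact h4
  have h6 : 0 ≤ Real.log T * ε / (2 * Real.pi) := by positivity
  have h7 : 0 ≤ Real.log (2 * Real.pi) := Real.log_nonneg (by linarith [Real.pi_gt_three])
  have h8 : 2 * y ^ 2 ≤ y * (5 / 2) := by nlinarith
  rw [h2, abs_le]
  constructor
  · have : 0 ≤ y * (Real.log (2 * Real.pi) / 2) := by positivity
    have : 0 ≤ y * (Real.log (2 * Real.pi) / 2 + 5 / 2) := by positivity
    nlinarith
  · nlinarith

theorem poi_proof (h1 : S_L1Y) (h2 : S_HN) : S_POI := by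
  obtain ⟨C1, T1, hC1, hT1, hL1⟩ := h1
  obtain ⟨c, V, hc, hV, hHN⟩ := h2
  obtain ⟨C2, hC2, hcount⟩ := count
  obtain ⟨B, hB, hsum⟩ := sumN
  have hpi := Real.pi_pos
  have hlog2 : 0 ≤ Real.log (2 * Real.pi) := Real.log_nonneg (by linarith [Real.pi_gt_three])
  refine ⟨5 * Real.pi * C2 + 5 / 4 * (C1 * Real.sqrt (V + 1) / c) * B +
    (Real.log (2 * Real.pi) / 2 + 5 / 2), max T1 10, by positivity, le_max_right _ _, ?_⟩
  intro T hT y hy hy1
  have hTT1 : T1 ≤ T := (le_max_left _ _).trans hT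
  have hT10 : (10:ℝ) ≤ T := (le_max_right _ _).trans hT
  have hLe : 1 ≤ Real.log T := by
    rw [Real.le_log_iff_exp_le (by linarith)]
    linarith [Real.exp_one_lt_d9]
  obtain ⟨Z, hZ, hcnt⟩ := hcount T hT10
  obtain ⟨N, hN1, hN2⟩ : ∃ N : ℕ, (N : ℝ) ≤ 2 * Real.log T ∧ Real.log T ≤ N := by
    refine ⟨⌊2 * Real.log T⌋₊, Nat.floor_le (by linarith), ?_⟩
    have := Nat.lt_floor_add_one (2 * Real.log T)
    linarith
  have hN0 : 0 < N := by
    have : (0:ℝ) < N := by linarith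
    exact_mod_cast this
  have hNR : (0:ℝ) < N := by exact_mod_cast hN0
  have hAd : ∀ n : ℤ, Adm 1 V (Real.log T) (fun x => c * (1 + (n : ℝ) ^ 2) * Hn y n x) :=
    fun n => hHN y hy hy1 n (Real.log T) hLe
  have hb0 : ∀ n : ℤ, c * (1 + (n : ℝ) ^ 2) ≠ 0 := fun n => by positivity
  have hHcont : ∀ n : ℤ, Continuous (Hn y n) := by
    intro n
    have h3 := (hAd n).c2.cd.continuous
    have e : Hn y n = fun x => (c * (1 + (n : ℝ) ^ 2))⁻¹ * (c * (1 + (n : ℝ) ^ 2) * Hn y n x) := by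
      funext x
      rw [← mul_assoc, inv_mul_cancel₀ (hb0 n), one_mul]
    rw [e]
    exact continuous_const.mul h3
  have hHint : ∀ n : ℤ, Integrable (Hn y n) := by
    intro n
    apply (hHcont n).integrable_of_hasCompactSupport
    apply HasCompactSupport.intro (isCompact_Icc (a := (-1:ℝ)) (b := 1))
    intro x hx
    have h4 : 1 ≤ |x| := by
      by_contra h
      push Not at h
      rw [abs_lt] at h
      exact hx ⟨h.1.le, h.2.le⟩
    exact (mul_eq_zero.1 ((hAd n).c2.supp x h4)).resolve_left (hb0 n)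
  have hXc : ∀ n : ℤ, Continuous (Xn Z T y n) := fun n =>
    (continuous_finsetSum _ fun s _ => continuous_const.mul
      ((hHcont n).comp (by fun_prop))).sub continuous_const
  obtain ⟨I, hI⟩ : ∃ I : Set ℝ, I = Icc (T + 3 * Real.log T) (2 * T - 3 * Real.log T) := ⟨_, rfl⟩
  obtain ⟨he1, he2, he3⟩ := Ef_int hN0 hy
  obtain ⟨K, hK⟩ : ∃ K : ℝ, K = Real.log T / (2 * Real.pi) * (Real.pi * y - ∫ x, Ef N y x) -
    y * lamT T := ⟨_, rfl⟩
  have hKb : |K| ≤ y * (Real.log (2 * Real.pi) / 2 + 5 / 2) := by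
    rw [hK]
    exact K_bound (by linarith) (by linarith) hN0 hN2 hy hy1 he2 he3
  have hA0 : ∀ t : ℝ, 0 ≤ ∑ s ∈ Z, (mz s : ℝ) * Ef N y (s.im - t) := fun t =>
    Finset.sum_nonneg fun s _ => mul_nonneg (Nat.cast_nonneg _) (Ef_nonneg N y _)
  rw [← hI]
  have hstep : ∫⁻ t in I, ENNReal.ofReal |(∑ᶠ ρ ∈ ZI (T / 2) (3 * T),
      (mz ρ : ℝ) * (y ^ 2 / ((ρ.im - t) ^ 2 + y ^ 2))) - y * lamT T - XF (Fy y) T t| ≤
      ∫⁻ t in I, ((ENNReal.ofReal (∑ s ∈ Z, (mz s : ℝ) * Ef N y (s.im - t)) +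
        ∑ k ∈ Finset.range (2 * N + 1), ENNReal.ofReal (y ^ 2 * |Xn Z T y ((k : ℤ) - N) t|)) +
        ENNReal.ofReal |K|) := by
    apply setLIntegral_mono' (by rw [hI]; exact measurableSet_Icc)
    intro t ht
    rw [hI] at ht
    rw [ident hZ hN0 hy hHint t (by linarith [ht.1]) (by linarith [ht.2]), ← hK,
      ← ENNReal.ofReal_sum_of_nonneg (fun k _ => by positivity),
      ← ENNReal.ofReal_add (hA0 t) (Finset.sum_nonneg fun k _ => by positivity),
      ← ENNReal.ofReal_add (add_nonneg (hA0 t) (Finset.sum_nonneg fun k _ => by positivity))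
        (abs_nonneg _)]
    apply ENNReal.ofReal_le_ofReal
    refine (abs_add_le _ _).trans (add_le_add ((abs_add_le _ _).trans (add_le_add ?_ ?_)) le_rfl)
    · rw [abs_of_nonneg (hA0 t)]
    · refine (Finset.abs_sum_le_sum_abs _ _).trans (le_of_eq (Finset.sum_congr rfl fun k _ => ?_))
      rw [abs_mul, abs_of_nonneg (sq_nonneg y)]
  refine hstep.trans ?_
  have hmk : ∀ k ∈ Finset.range (2 * N + 1),
      Measurable (fun t => ENNReal.ofReal (y ^ 2 * |Xn Z T y ((k : ℤ) - N) t|)) := fun k _ =>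
    (continuous_const.mul (hXc _).abs).measurable.ennreal_ofReal
  rw [lintegral_add_right _ measurable_const, lintegral_add_left (by
      apply Measurable.ennreal_ofReal
      exact (continuous_finsetSum _ fun s _ => continuous_const.mul
        ((Ef_cont N hy).comp (by fun_prop))).measurable), lintegral_finsetSum _ hmk]
  have b1 := E_bound hN0 hy Z I
  have b2 : ∀ k ∈ Finset.range (2 * N + 1),
      ∫⁻ t in I, ENNReal.ofReal (y ^ 2 * |Xn Z T y ((k : ℤ) - N) t|) ≤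
      ENNReal.ofReal (y ^ 2 * (C1 * T * Real.sqrt (V + 1)) / c *
        (1 / (1 + (((k : ℤ) - N : ℤ) : ℝ) ^ 2))) := by
    intro k hk
    have hk' := Finset.mem_range.1 hk
    rw [hI]
    apply X_bound hT10 hZ hc ((k : ℤ) - N) (hAd _) ((hL1 T hTT1 V _ hV.le (hAd _)).2)
    have h5 : |(((k : ℤ) - N : ℤ) : ℝ)| ≤ N := by
      have h6 : |((k : ℤ) - N : ℤ)| ≤ (N : ℤ) := by
        rw [abs_le]
        omega
      rw [← Int.cast_abs]
      exact_mod_cast h6
    exact h5.trans hN1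
  have b3 : ∫⁻ _t in I, ENNReal.ofReal |K| ≤ ENNReal.ofReal (|K| * T) := by
    rw [setLIntegral_const, hI, Real.volume_Icc, ← ENNReal.ofReal_mul (abs_nonneg _)]
    apply ENNReal.ofReal_le_ofReal
    apply mul_le_mul_of_nonneg_left _ (abs_nonneg _)
    linarith
  refine (add_le_add (add_le_add b1 (Finset.sum_le_sum b2)) b3).trans ?_
  have hsz : 0 ≤ ∑ s ∈ Z, (mz s : ℝ) := Finset.sum_nonneg fun s _ => Nat.cast_nonneg _
  rw [← ENNReal.ofReal_sum_of_nonneg (fun k _ => by positivity),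
    ← ENNReal.ofReal_add (by positivity) (Finset.sum_nonneg fun k _ => by positivity),
    ← ENNReal.ofReal_add (add_nonneg (by positivity) (Finset.sum_nonneg fun k _ => by positivity))
      (by positivity)]
  apply ENNReal.ofReal_le_ofReal
  have f1 : (∑ s ∈ Z, (mz s : ℝ)) * (2 * y ^ 2 * (Real.pi / ((N : ℝ) / 2))) ≤
      5 * Real.pi * C2 * (y * T) := by
    have g1 : (∑ s ∈ Z, (mz s : ℝ)) * (2 * y ^ 2 * (Real.pi / ((N : ℝ) / 2))) ≤
        (C2 * (T * N)) * (2 * y ^ 2 * (Real.pi / ((N : ℝ) / 2))) := by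
      apply mul_le_mul_of_nonneg_right _ (by positivity)
      refine hcnt.trans ?_
      apply mul_le_mul_of_nonneg_left _ hC2.le
      exact mul_le_mul_of_nonneg_left hN2 (by linarith)
    have g2 : (C2 * (T * N)) * (2 * y ^ 2 * (Real.pi / ((N : ℝ) / 2))) =
        4 * Real.pi * C2 * (y * T) * y := by
      field_simp
      ring
    rw [g2] at g1
    refine g1.trans ?_
    have g3 : 0 ≤ Real.pi * C2 * (y * T) := by positivity
    nlinarith
  have f2 : ∑ k ∈ Finset.range (2 * N + 1), y ^ 2 * (C1 * T * Real.sqrt (V + 1)) / c *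
        (1 / (1 + (((k : ℤ) - N : ℤ) : ℝ) ^ 2)) ≤
      5 / 4 * (C1 * Real.sqrt (V + 1) / c) * B * (y * T) := by
    rw [← Finset.mul_sum]
    have g1 : y ^ 2 * (C1 * T * Real.sqrt (V + 1)) / c = y * (C1 * Real.sqrt (V + 1) / c * (y * T)) := by
      ring
    rw [g1]
    have g2 : 0 ≤ C1 * Real.sqrt (V + 1) / c * (y * T) := by positivity
    have g3 : y * (C1 * Real.sqrt (V + 1) / c * (y * T)) ≤
        5 / 4 * (C1 * Real.sqrt (V + 1) / c * (y * T)) := mul_le_mul_of_nonneg_right hy1 g2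
    have g4 := mul_le_mul g3 (hsum N) (Finset.sum_nonneg fun k _ => by positivity) (by positivity)
    refine g4.trans (le_of_eq ?_)
    ring
  have f3 : |K| * T ≤ (Real.log (2 * Real.pi) / 2 + 5 / 2) * (y * T) := by
    have := mul_le_mul_of_nonneg_right hKb (by linarith : 0 ≤ T)
    refine this.trans (le_of_eq ?_)
    ring
  refine (add_le_add (add_le_add f1 f2) f3).trans (le_of_eq ?_)
  ring

end Pool.Agent.H969.GA.POI
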